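import Pool.Agent.Helper71.P4.St

namespace Helper71.P4

open Helper69.CR
open MeasureTheory Set

/-- recursion of the arcsine moments. -/
private lemma cb_succ_AM (m : ℕ) :
    ((Nat.centralBinom (m + 1) : ℝ) / 4 ^ (m + 1)) =
      (2 * (m : ℝ) + 1) / (2 * (m : ℝ) + 2) * ((Nat.centralBinom m : ℝ) / 4 ^ m) := by
  have h : ((m : ℝ) + 1) * (Nat.centralBinom (m + 1) : ℝ) =
      2 * (2 * (m : ℝ) + 1) * (Nat.centralBinom m : ℝ) := by
    exact_mod_cast Nat.succ_mul_centralBinom_succ m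
  have hm : ((m : ℝ) + 1) ≠ 0 := by positivity
  have h2 : (Nat.centralBinom (m + 1) : ℝ) =
      2 * (2 * (m : ℝ) + 1) * (Nat.centralBinom m : ℝ) / ((m : ℝ) + 1) := by
    field_simp
    linarith
  rw [h2, pow_succ]
  field_simp
  ring

theorem hAM : StX0 → StX1 → StX2 → StAM := by
  intro h0 h1 h2 n hn
  obtain ⟨_, hb, hc⟩ := h1 n hn
  -- one step
  have step : ∀ m : ℕ, (2 * (m : ℝ) + 2) * Xm n (m + 1) ≤ (2 * (m : ℝ) + 1) * Xm n m := by
    intro m
    rcases m with _ | m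
    · have hnn : 0 ≤ ∫ s in (0 : ℝ)..1, uu n s ^ 2 :=
        intervalIntegral.integral_nonneg zero_le_one (fun s _ => sq_nonneg _)
      simp only [Nat.cast_zero, zero_add]
      linarith
    · have e := hb m
      have i := h2 n hn m
      push_cast
      nlinarith [e, i]
  intro m
  induction m with
  | zero => simp [h0 n hn]
  | succ m ih =>
    have hs := step m
    have hp : (0 : ℝ) < 2 * (m : ℝ) + 2 := by positivity
    have hq : (0 : ℝ) ≤ 2 * (m : ℝ) + 1 := by positivity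
    rw [cb_succ_AM m]
    have h3 : (2 * (m : ℝ) + 2) * Xm n (m + 1) ≤
        (2 * (m : ℝ) + 1) * ((n : ℝ) / 2 * (Nat.centralBinom m / 4 ^ m)) :=
      hs.trans (mul_le_mul_of_nonneg_left ih hq)
    have h4 : (n : ℝ) / 2 * ((2 * (m : ℝ) + 1) / (2 * (m : ℝ) + 2) *
        ((Nat.centralBinom m : ℝ) / 4 ^ m)) =
        ((2 * (m : ℝ) + 1) * ((n : ℝ) / 2 * (Nat.centralBinom m / 4 ^ m))) /
          (2 * (m : ℝ) + 2) := by
      field_simp
    rw [h4, le_div_iff₀ hp]
    linarith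

end Helper71.P4
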